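import Pool.Agent.Helper506.ArcSupport

set_option autoImplicit false
open Complex Set Filter Metric Topology

namespace Pool.Agent.Y242.Arc

open Pool.Agent.Helper506.ArcJ Pool.Agent.Helper506.Arc

/-- the area theorem bounds the coefficients of the root by the first one -/
theorem root_coeff_sq {f s : ℂ → ℂ} (hf : InS f) (hs : IsRoot f s) {σ : ℕ → ℂ} (hσ : PS σ s)
    {n : ℕ} (hn : 2 ≤ n) : ‖σ n‖ ^ 2 ≤ 1 - ‖σ 1‖ ^ 2 := by
  have hκ : PS (fun k => if k < 2 then 0 else σ (k - 2)) (KK 0 0 s) := by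
    intro w hw
    have h1 := (hσ w hw).mul_left (w ^ 2)
    have hinj : Function.Injective (fun j : ℕ => j + 2) := fun a b h => by
      have : a + 2 = b + 2 := h
      omega
    rw [← hinj.hasSum_iff]
    · have e : KK 0 0 s w = w ^ 2 * s w := by simp [KK]
      rw [e]
      have e2 : ((fun n => (if n < 2 then (0 : ℂ) else σ (n - 2)) * w ^ n) ∘ fun j => j + 2)
          = fun i => w ^ 2 * (σ i * w ^ i) := by
        funext j
        have h2 : ¬ (j + 2 < 2) := by omega
        simp only [Function.comp_apply, if_neg h2, Nat.add_sub_cancel]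
        ring
      rw [e2]
      exact h1
    · intro x hx
      have : x < 2 := by
        by_contra h
        exact hx ⟨x - 2, by simp only; omega⟩
      simp only [if_pos this, zero_mul]
  have h1 := area_s hf hs hκ (n + 3) (by omega)
  set g : ℕ → ℝ := fun k => (2 * (k : ℝ) - 5) * ‖(if k < 2 then 0 else σ (k - 2))‖ ^ 2 with hg
  have h2 : ∑ k ∈ ({2, 3, n + 2} : Finset ℕ), g k ≤ ∑ k ∈ Finset.range (n + 3), g k := by
    apply Finset.sum_le_sum_of_subset_of_nonneg
    · intro k hk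
      simp only [Finset.mem_insert, Finset.mem_singleton] at hk
      rw [Finset.mem_range]
      omega
    · intro k _ hk
      simp only [Finset.mem_insert, Finset.mem_singleton, not_or] at hk
      simp only [hg]
      rcases Nat.lt_or_ge k 2 with h | h
      · simp [h]
      · have h4 : 3 ≤ k := by omega
        have h5 : (3 : ℝ) ≤ k := by exact_mod_cast h4
        have h6 : 0 ≤ 2 * (k : ℝ) - 5 := by linarith
        positivity
  have h3 : ∑ k ∈ ({2, 3, n + 2} : Finset ℕ), g k = g 2 + (g 3 + g (n + 2)) := by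
    rw [Finset.sum_insert, Finset.sum_insert, Finset.sum_singleton]
    · simp only [Finset.mem_singleton]; omega
    · simp only [Finset.mem_insert, Finset.mem_singleton, not_or]
      constructor <;> omega
  have g2 : g 2 = -1 := by
    simp only [hg]
    have h7 : ‖(if (2 : ℕ) < 2 then 0 else σ (2 - 2))‖ = 1 := by
      simp [← hσ.zero, hs.2.1]
    rw [h7]
    norm_num
  have g3 : g 3 = ‖σ 1‖ ^ 2 := by
    simp only [hg]
    norm_num
  have g4 : ‖σ n‖ ^ 2 ≤ g (n + 2) := by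
    simp only [hg]
    have h8 : ¬ (n + 2 < 2) := by omega
    simp only [if_neg h8, Nat.add_sub_cancel]
    have h9 : (2 : ℝ) ≤ n := by exact_mod_cast hn
    push_cast
    nlinarith [sq_nonneg ‖σ n‖]
  have h5 : ∑ k ∈ Finset.range (n + 3), g k ≤ 0 := h1
  linarith

/-- closeness of the root to `1 - z` -/
theorem root_close {f s : ℂ → ℂ} (hf : InS f) (hs : IsRoot f s) {σ : ℕ → ℂ} (hσ : PS σ s)
    {η e r : ℝ} (hη : η ≤ 1) (he : 0 ≤ e) (hηe : 2 * η ≤ e ^ 2)
    (h : |1 + (σ 1).re| ≤ η) (hr : r < 1) (z : ℂ) (hz : ‖z‖ ≤ r) :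
    ‖s z - (1 - z)‖ ≤ e / (1 - r) := by
  have hη0 : 0 ≤ η := (abs_nonneg _).trans h
  have hr0 : 0 ≤ r := (norm_nonneg z).trans hz
  have hz1 : ‖z‖ < 1 := by linarith
  have hre := abs_le.1 h
  have hn1 : ‖σ 1‖ ≤ 1 := root_coeff_le hf hs hσ 1
  have hn1l : 1 - η ≤ ‖σ 1‖ := by
    have h1 := Complex.abs_re_le_norm (σ 1)
    have h2 := neg_abs_le (σ 1).re
    linarith [hre.2]
  have hs1 : ‖σ 1 + 1‖ ≤ e := by
    apply le_of_sq_le_sq _ he
    have h1 : ‖σ 1 + 1‖ ^ 2 = ‖σ 1‖ ^ 2 + 2 * (σ 1).re + 1 := by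
      rw [← Complex.normSq_eq_norm_sq, ← Complex.normSq_eq_norm_sq, Complex.normSq_apply,
        Complex.normSq_apply]
      simp only [Complex.add_re, Complex.add_im, Complex.one_re, Complex.one_im]
      ring
    rw [h1]
    have h2 : ‖σ 1‖ ^ 2 ≤ 1 := by nlinarith [norm_nonneg (σ 1)]
    linarith [hre.2]
  have hs2 : ∀ n, 2 ≤ n → ‖σ n‖ ≤ e := by
    intro n hn
    apply le_of_sq_le_sq _ he
    have h1 := root_coeff_sq hf hs hσ hn
    have h2 : (1 - η) ^ 2 ≤ ‖σ 1‖ ^ 2 := by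
      apply pow_le_pow_left₀ (by linarith) hn1l
    nlinarith
  have hone : PS (fun n => (if n = 0 then 1 else 0) + (-1) * (if n = 1 then 1 else 0))
      (fun z => z ^ 0 + (-1) * z ^ 1) := (PS_pow 0).add ((PS_pow 1).const_mul (-1))
  have h1 := (hσ z hz1).sub (hone z hz1)
  have h2 : s z - (z ^ 0 + (-1) * z ^ 1) = s z - (1 - z) := by ring
  rw [h2] at h1
  have hgeo : HasSum (fun n : ℕ => e * r ^ n) (e * (1 - r)⁻¹) :=
    (hasSum_geometric_of_lt_one hr0 hr).mul_left e
  rw [div_eq_mul_inv]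
  refine h1.norm_le_of_bounded hgeo ?_
  intro n
  have h3 : σ n * z ^ n - ((if n = 0 then 1 else 0) + (-1) * (if n = 1 then 1 else 0)) * z ^ n
      = (σ n - ((if n = 0 then 1 else 0) + (-1) * (if n = 1 then 1 else 0))) * z ^ n := by ring
  rw [h3, norm_mul, norm_pow]
  have h4 : ‖σ n - ((if n = 0 then 1 else 0) + (-1) * (if n = 1 then (1 : ℂ) else 0))‖ ≤ e := by
    rcases Nat.lt_or_ge n 2 with hn | hn
    · interval_cases n
      · have h0 : σ 0 = 1 := by rw [← hσ.zero, hs.2.1]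
        simp [h0, he]
      · simp only [one_ne_zero, if_false, if_true, zero_add, mul_one, sub_neg_eq_add]
        exact hs1
    · have n0 : n ≠ 0 := by omega
      have n1 : n ≠ 1 := by omega
      simp only [if_neg n0, if_neg n1, mul_zero, add_zero, sub_zero]
      exact hs2 n hn
  exact mul_le_mul h4 (pow_le_pow_left₀ (norm_nonneg _) hz n) (by positivity) he

/-- closeness to the Koebe function -/
theorem koebe_close {r δ : ℝ} (hr : r < 1) (hδ : 0 < δ) : ∃ η : ℝ, 0 < η ∧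
    ∀ (f s : ℂ → ℂ) (σ : ℕ → ℂ), InS f → IsRoot f s → PS σ s → |1 + (σ 1).re| ≤ η →
      ∀ z : ℂ, ‖z‖ ≤ r → ‖f z - z / (1 - z) ^ 2‖ ≤ δ := by
  set d : ℝ := 1 - r with hd
  have hd0 : 0 < d := by linarith
  set m : ℝ := min (d / 2) (δ * d ^ 4 / 20) with hm
  have hm0 : 0 < m := by positivity
  refine ⟨min 1 ((m * d) ^ 2 / 2), by positivity, ?_⟩
  intro f s σ hf hs hσ h z hz
  have hr0 : 0 ≤ r := (norm_nonneg z).trans hz
  have hd1 : d ≤ 1 := by linarith
  have hz1 : ‖z‖ < 1 := by linarith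
  have h1 : ‖s z - (1 - z)‖ ≤ m := by
    have := root_close hf hs hσ (min_le_left _ _) (by positivity : 0 ≤ m * d) (by
      have := min_le_right 1 ((m * d) ^ 2 / 2)
      linarith) h hr z hz
    rw [← hd, mul_div_cancel_right₀ _ hd0.ne'] at this
    exact this
  have h2 := hs.2.2.2 z (by simpa using hz1)
  set S := s z with hS
  set K : ℂ := 1 - z with hK
  have hKl : d ≤ ‖K‖ := by
    have := norm_sub_norm_le (1 : ℂ) z
    rw [norm_one] at this
    linarith
  have hKu : ‖K‖ ≤ 2 := by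
    have := norm_sub_le (1 : ℂ) z
    rw [norm_one] at this
    linarith
  have hm1 : m ≤ d / 2 := min_le_left _ _
  have hm2 : m ≤ δ * d ^ 4 / 20 := min_le_right _ _
  have hSl : d / 2 ≤ ‖S‖ := by
    have := norm_sub_norm_le K (K - S)
    rw [sub_sub_cancel, norm_sub_rev K S] at this
    linarith
  have hSu : ‖S‖ ≤ 3 := by
    have := norm_sub_norm_le S K
    linarith
  have hS0 : S ≠ 0 := by
    intro h0
    rw [h0, norm_zero] at hSl
    linarith
  have hK0 : K ≠ 0 := by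
    intro h0
    rw [h0, norm_zero] at hKl
    linarith
  have hfz : f z = z / S ^ 2 := by
    rw [eq_div_iff (pow_ne_zero 2 hS0)]
    exact h2
  have key : f z - z / K ^ 2 = z * ((K - S) * (K + S)) / (S ^ 2 * K ^ 2) := by
    rw [hfz]
    field_simp
    ring
  rw [key, norm_div, norm_mul, norm_mul, norm_mul, norm_pow, norm_pow]
  have hden : (d / 2) ^ 2 * d ^ 2 ≤ ‖S‖ ^ 2 * ‖K‖ ^ 2 := by gcongr
  have hden0 : 0 < (d / 2) ^ 2 * d ^ 2 := by positivity
  have hnum : ‖z‖ * (‖K - S‖ * ‖K + S‖) ≤ 1 * (m * 5) := by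
    have e1 : ‖K - S‖ ≤ m := by rw [norm_sub_rev]; exact h1
    have e2 : ‖K + S‖ ≤ 5 := (norm_add_le _ _).trans (by linarith)
    gcongr
  rw [div_le_iff₀ (by positivity)]
  calc ‖z‖ * (‖K - S‖ * ‖K + S‖) ≤ 1 * (m * 5) := hnum
    _ ≤ δ * ((d / 2) ^ 2 * d ^ 2) := by nlinarith
    _ ≤ δ * (‖S‖ ^ 2 * ‖K‖ ^ 2) := by gcongr

end Pool.Agent.Y242.Arc
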