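import Pool.Agent.Helper506.ArcJCurve

set_option autoImplicit false
open Set Filter Metric Topology

namespace Pool.Agent.Y242.Arc

open Pool.Agent.Helper506.ArcJ.ImplicitCurve (cos_low sin_half sin_sub cos_sub)

open scoped ContDiff

/-- The equation. -/
noncomputable def ff (α ε : ℝ) (p : ℝ × ℝ) : ℝ :=
  Real.sin p.2 - ε * (p.1 ^ 2 * Real.cos (5 * p.2) - α * p.1 * Real.cos (3 * p.2))

/-- Its derivative in the second variable. -/
noncomputable def DD (α ε T x : ℝ) : ℝ :=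
  Real.cos x + ε * (5 * T ^ 2 * Real.sin (5 * x) - 3 * α * T * Real.sin (3 * x))

theorem ff_contDiff (α ε : ℝ) : ContDiff ℝ ω (ff α ε) := by
  unfold ff
  fun_prop

theorem ff_deriv (α ε T x : ℝ) : HasDerivAt (fun x => ff α ε (T, x)) (DD α ε T x) x := by
  have h5 : HasDerivAt (fun x : ℝ => 5 * x) 5 x := by simpa using (hasDerivAt_id x).const_mul (5 : ℝ)
  have h3 : HasDerivAt (fun x : ℝ => 3 * x) 3 x := by simpa using (hasDerivAt_id x).const_mul (3 : ℝ)
  have h := (Real.hasDerivAt_sin x).sub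
    (((h5.cos.const_mul (T ^ 2)).sub (h3.cos.const_mul (α * T))).const_mul ε)
  refine h.congr_deriv ?_
  unfold DD
  ring

theorem DD_low {α ε T x : ℝ} (hα0 : 0 < α) (hα : α ≤ 8) (hε0 : 0 < ε) (hε : ε ≤ 1 / 1000)
    (hT : |T| ≤ 5) (hx : |x| ≤ 1 / 2) :
    1 / 2 ≤ DD α ε T x := by
  have h1 := cos_low hx
  have h2 : |5 * T ^ 2 * Real.sin (5 * x) - 3 * α * T * Real.sin (3 * x)| ≤ 245 := by
    have e1 : |5 * T ^ 2 * Real.sin (5 * x)| ≤ 125 := by
      rw [abs_mul, abs_mul, abs_of_pos (by norm_num : (0 : ℝ) < 5), abs_pow]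
      have := Real.abs_sin_le_one (5 * x)
      have h25 : |T| ^ 2 ≤ 25 := by nlinarith [abs_nonneg T]
      calc 5 * |T| ^ 2 * |Real.sin (5 * x)| ≤ 5 * 25 * 1 := by gcongr
        _ = 125 := by norm_num
    have e2 : |3 * α * T * Real.sin (3 * x)| ≤ 120 := by
      rw [abs_mul, abs_mul, abs_of_pos (by positivity : (0 : ℝ) < 3 * α)]
      have := Real.abs_sin_le_one (3 * x)
      calc 3 * α * |T| * |Real.sin (3 * x)| ≤ 3 * 8 * 5 * 1 := by gcongr
        _ = 120 := by norm_num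
    have := abs_sub (5 * T ^ 2 * Real.sin (5 * x)) (3 * α * T * Real.sin (3 * x))
    linarith
  rw [abs_le] at h2
  unfold DD
  nlinarith

theorem brac_bound {α T x : ℝ} (hα0 : 0 < α) (hα : α ≤ 8) (hT : |T| ≤ 5) :
    |T ^ 2 * Real.cos (5 * x) - α * T * Real.cos (3 * x)| ≤ 65 := by
  have e1 : |T ^ 2 * Real.cos (5 * x)| ≤ 25 := by
    rw [abs_mul, abs_pow]
    have := Real.abs_cos_le_one (5 * x)
    have h25 : |T| ^ 2 ≤ 25 := by nlinarith [abs_nonneg T]
    calc |T| ^ 2 * |Real.cos (5 * x)| ≤ 25 * 1 := by gcongr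
      _ = 25 := by norm_num
  have e2 : |α * T * Real.cos (3 * x)| ≤ 40 := by
    rw [abs_mul, abs_mul, abs_of_pos hα0]
    have := Real.abs_cos_le_one (3 * x)
    calc α * |T| * |Real.cos (3 * x)| ≤ 8 * 5 * 1 := by gcongr
      _ = 40 := by norm_num
  have := abs_sub (T ^ 2 * Real.cos (5 * x)) (α * T * Real.cos (3 * x))
  linarith

theorem exists_zero {α ε T : ℝ} (hα0 : 0 < α) (hα : α ≤ 8) (hε0 : 0 < ε) (hε : ε ≤ 1 / 1000)
    (hT : |T| ≤ 5) : ∃ x ∈ Ioo (-(1 / 2) : ℝ) (1 / 2), ff α ε (T, x) = 0 := by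
  have hcont : ContinuousOn (fun x => ff α ε (T, x)) (Icc (-(1 / 2) : ℝ) (1 / 2)) :=
    fun x _ => (ff_deriv α ε T x).continuousAt.continuousWithinAt
  have hs := sin_half
  have h1 : ff α ε (T, -(1 / 2)) < 0 := by
    unfold ff
    have := abs_le.1 (brac_bound (x := -(1 / 2)) hα0 hα hT)
    simp only [Real.sin_neg] at *
    nlinarith [this.1]
  have h2 : 0 < ff α ε (T, 1 / 2) := by
    unfold ff
    have := abs_le.1 (brac_bound (x := 1 / 2) hα0 hα hT)
    simp only at *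
    nlinarith [this.2]
  obtain ⟨x, hx, hx0⟩ := intermediate_value_Ioo (by norm_num : (-(1 / 2) : ℝ) ≤ 1 / 2) hcont ⟨h1, h2⟩
  exact ⟨x, hx, hx0⟩

theorem zero_unique {α ε T x y : ℝ} (hα0 : 0 < α) (hα : α ≤ 8) (hε0 : 0 < ε) (hε : ε ≤ 1 / 1000)
    (hT : |T| ≤ 5)
    (hx : x ∈ Icc (-(1 / 2) : ℝ) (1 / 2)) (hy : y ∈ Icc (-(1 / 2) : ℝ) (1 / 2))
    (h1 : ff α ε (T, x) = 0) (h2 : ff α ε (T, y) = 0) : x = y := by
  have hmono : StrictMonoOn (fun x => ff α ε (T, x)) (Icc (-(1 / 2) : ℝ) (1 / 2)) := by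
    apply strictMonoOn_of_deriv_pos (convex_Icc _ _)
      (fun x _ => (ff_deriv α ε T x).continuousAt.continuousWithinAt)
    intro x hx
    rw [interior_Icc] at hx
    rw [(ff_deriv α ε T x).deriv]
    have := DD_low hα0 hα hε0 hε hT (x := x)
      (by rw [abs_le]; constructor <;> linarith [hx.1, hx.2])
    linarith
  exact hmono.injOn hx hy (h1.trans h2.symm)

theorem X_small {α ε T x : ℝ} (hα0 : 0 < α) (hα : α ≤ 8) (hε0 : 0 < ε) (hx : |x| ≤ 1 / 2)
    (hT : |T| ≤ 5) (h : ff α ε (T, x) = 0) : |x| ≤ 130 * ε := by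
  have h1 := brac_bound (x := x) hα0 hα hT
  have h2 : Real.sin x = ε * (T ^ 2 * Real.cos (5 * x) - α * T * Real.cos (3 * x)) := by
    unfold ff at h
    linarith
  have h3 : |Real.sin x| ≤ 65 * ε := by
    rw [h2, abs_mul, abs_of_pos hε0]
    nlinarith
  have h4 := sin_sub hx
  have h5 : |x| ≤ |Real.sin x| + |Real.sin x - x| := by
    have := abs_sub_abs_le_abs_sub x (Real.sin x)
    rw [abs_sub_comm x] at this
    linarith
  have h6 : x ^ 2 / 4 ≤ |x| / 2 := by
    rw [← sq_abs]; nlinarith [abs_nonneg x]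
  linarith

theorem abs_lin {a b x y A B δ : ℝ} (hx : |x| ≤ A * δ) (hy : |y| ≤ B * δ) (ha : |a| ≤ 1)
    (hb : |b| ≤ 1) : |a * x + b * y| ≤ (A + B) * δ := by
  refine (abs_add_le _ _).trans ?_
  rw [abs_mul, abs_mul]
  nlinarith [abs_nonneg x, abs_nonneg y, abs_nonneg a, abs_nonneg b]

/-- The curve, with the sign of its derivative. -/
theorem implicit_curve {α : ℝ} (hα0 : 0 < α) (hα : α < 8) : ∃ e0 C : ℝ, 0 < e0 ∧ 0 < C ∧
    ∀ ε : ℝ, 0 < ε → ε ≤ e0 →
    ∃ X : ℝ → ℝ, ContinuousOn X (Icc 0 4) ∧ X 0 = 0 ∧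
      (∀ T ∈ Icc (0 : ℝ) 4, |X T| < 1 / 2) ∧
      (∀ T ∈ Icc (0 : ℝ) 4,
        Real.sin (X T) = ε * (T ^ 2 * Real.cos (5 * X T) - α * T * Real.cos (3 * X T))) ∧
      (∀ T ∈ Icc (0 : ℝ) 4, AnalyticAt ℝ X T) ∧
      (∀ T ∈ Icc (0 : ℝ) 4, |deriv X T - ε * (2 * T - α)| ≤ C * ε ^ 2) ∧
      ∃ T₁ : ℝ, 0 < T₁ ∧ T₁ < 4 ∧ |T₁ - α / 2| ≤ C * ε ∧ StrictAntiOn X (Icc 0 T₁) ∧
        StrictMonoOn X (Icc T₁ 4) := by
  classical
  refine ⟨min (1 / 10000) ((8 - α) / 1000000), 1000000, by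
    have : 0 < 8 - α := by linarith
    positivity, by norm_num, ?_⟩
  intro ε hε0 hεm
  have hα8 : α ≤ 8 := hα.le
  have hε4 : ε ≤ 1 / 10000 := hεm.trans (min_le_left _ _)
  have hε8 : ε ≤ (8 - α) / 1000000 := hεm.trans (min_le_right _ _)
  have hε : ε ≤ 1 / 1000 := by linarith
  set X : ℝ → ℝ := fun T => if h : |T| ≤ 5 then (exists_zero hα0 hα8 hε0 hε h).choose else 0
    with hXdef
  have hX1 : ∀ T, |T| ≤ 5 → X T ∈ Ioo (-(1 / 2) : ℝ) (1 / 2) ∧ ff α ε (T, X T) = 0 := by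
    intro T hT
    simp only [hXdef]
    rw [dif_pos hT]
    exact (exists_zero hα0 hα8 hε0 hε hT).choose_spec
  have hT5 : ∀ T ∈ Icc (0 : ℝ) 4, |T| ≤ 5 := fun T hT => by
    rw [abs_le]; constructor <;> linarith [hT.1, hT.2]
  have hXabs : ∀ T, |T| ≤ 5 → |X T| < 1 / 2 := fun T hT => abs_lt.2 (hX1 T hT).1
  have heq : ∀ T, |T| ≤ 5 →
      Real.sin (X T) = ε * (T ^ 2 * Real.cos (5 * X T) - α * T * Real.cos (3 * X T)) := by
    intro T hT
    have := (hX1 T hT).2
    unfold ff at this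
    simp only at this
    linarith
  have han : ∀ T ∈ Icc (0 : ℝ) 4, AnalyticAt ℝ X T := by
    intro T hT
    obtain ⟨hXT, hf⟩ := hX1 T (hT5 T hT)
    have cdf : ContDiffAt ℝ ω (ff α ε) (T, X T) := (ff_contDiff α ε).contDiffAt
    have pn : (ω : WithTop ℕ∞) ≠ 0 := by simp
    have hD := DD_low hα0 hα8 hε0 hε (hT5 T hT) (hXabs T (hT5 T hT)).le
    have hfd : HasFDerivAt (ff α ε) (fderiv ℝ (ff α ε) (T, X T)) (T, X T) :=
      (cdf.differentiableAt (by simp)).hasFDerivAt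
    have hline : HasDerivAt (fun x : ℝ => ((T, x) : ℝ × ℝ)) (0, 1) (X T) :=
      (hasDerivAt_const (X T) T).prodMk (hasDerivAt_id (X T))
    have hD2 : fderiv ℝ (ff α ε) (T, X T) (0, 1) = DD α ε T (X T) := by
      have h1 : HasDerivAt (fun x => ff α ε (T, x)) (fderiv ℝ (ff α ε) (T, X T) (0, 1)) (X T) :=
        HasFDerivAt.comp_hasDerivAt (X T) hfd hline
      exact h1.unique (ff_deriv α ε T (X T))
    have if₂ : (fderiv ℝ (ff α ε) (T, X T) ∘L .inr ℝ ℝ ℝ).IsInvertible := by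
      have hne : DD α ε T (X T) ≠ 0 := by linarith
      refine ⟨ContinuousLinearEquiv.unitsEquivAut ℝ (Units.mk0 _ hne), ?_⟩
      apply ContinuousLinearMap.ext_ring
      simp [hD2]
    have hψ1 := cdf.eventually_apply_implicitFunction pn if₂
    have hψ2 := cdf.contDiffAt_implicitFunction pn if₂
    have hψ3 := cdf.implicitFunction_apply_self pn if₂
    simp only at hψ1 hψ2 hψ3
    set ψ := cdf.implicitFunction pn if₂
    have hψc : ContinuousAt ψ T := hψ2.continuousAt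
    have hψ4 : ∀ᶠ t in 𝓝 T, ψ t ∈ Ioo (-(1 / 2) : ℝ) (1 / 2) := by
      apply hψc.eventually
      rw [hψ3]
      exact Ioo_mem_nhds hXT.1 hXT.2
    have hT6 : ∀ᶠ t in 𝓝 T, |t| ≤ 5 := by
      have : Icc (-5 : ℝ) 5 ∈ 𝓝 T := Icc_mem_nhds (by linarith [hT.1]) (by linarith [hT.2])
      filter_upwards [this] with t ht
      exact abs_le.2 ht
    have hEq : X =ᶠ[𝓝 T] ψ := by
      filter_upwards [hψ1, hψ4, hT6] with t h1 h2 h3
      rw [hf] at h1
      exact zero_unique hα0 hα8 hε0 hε h3 ⟨(hX1 t h3).1.1.le, (hX1 t h3).1.2.le⟩ ⟨h2.1.le, h2.2.le⟩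
        (hX1 t h3).2 h1
    have h9 : ContDiffAt ℝ ω X T := hψ2.congr_of_eventuallyEq hEq
    exact h9.analyticAt
  have hsmall : ∀ T ∈ Icc (0 : ℝ) 4, |X T| ≤ 130 * ε := fun T hT =>
    X_small hα0 hα8 hε0 (hXabs T (hT5 T hT)).le (hT5 T hT) (hX1 T (hT5 T hT)).2
  have hcont : ContinuousOn X (Icc 0 4) := fun T hT => (han T hT).continuousAt.continuousWithinAt
  have hX0 : X 0 = 0 := by
    have h0 := hX1 0 (by simp)
    exact zero_unique hα0 hα8 hε0 hε (by simp) ⟨h0.1.1.le, h0.1.2.le⟩ (by constructor <;> norm_num)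
      h0.2 (by unfold ff; simp)
  -- the derivative
  set h : ℝ → ℝ := fun T => 2 * T * Real.cos (5 * X T) - α * Real.cos (3 * X T) with hh
  have hrel : ∀ T ∈ Icc (0 : ℝ) 4, deriv X T * DD α ε T (X T) = ε * h T := by
    intro T hT
    have hd := (han T hT).differentiableAt.hasDerivAt
    set X' := deriv X T with hX'
    have hc5 : HasDerivAt (fun t => Real.cos (5 * X t)) (-Real.sin (5 * X T) * (5 * X')) T :=
      (hd.const_mul 5).cos
    have hc3 : HasDerivAt (fun t => Real.cos (3 * X t)) (-Real.sin (3 * X T) * (3 * X')) T :=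
      (hd.const_mul 3).cos
    have hsq : HasDerivAt (fun t : ℝ => t ^ 2) (2 * T) T := by simpa using hasDerivAt_pow 2 T
    have h4t : HasDerivAt (fun t : ℝ => α * t) α T := by simpa using (hasDerivAt_id T).const_mul α
    have hder := hd.sin.sub (((hsq.mul hc5).sub (h4t.mul hc3)).const_mul ε)
    have hT6 : ∀ᶠ t in 𝓝 T, |t| ≤ 5 := by
      have : Icc (-5 : ℝ) 5 ∈ 𝓝 T := Icc_mem_nhds (by linarith [hT.1]) (by linarith [hT.2])
      filter_upwards [this] with t ht
      exact abs_le.2 ht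
    have hzero : HasDerivAt (fun _ : ℝ => (0 : ℝ)) 0 T := hasDerivAt_const T 0
    have hzero' := hzero.congr_of_eventuallyEq (f₁ := fun t => ff α ε (t, X t)) (by
      filter_upwards [hT6] with t ht
      exact (hX1 t ht).2)
    have huniq := hzero'.unique hder
    unfold DD
    simp only [hh]
    linarith
  have hDlow : ∀ T ∈ Icc (0 : ℝ) 4, 1 / 2 ≤ DD α ε T (X T) := fun T hT =>
    DD_low hα0 hα8 hε0 hε (hT5 T hT) (hXabs T (hT5 T hT)).le
  have hX2 : ∀ T ∈ Icc (0 : ℝ) 4, (X T) ^ 2 ≤ 16900 * ε ^ 2 := by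
    intro T hT
    rw [← sq_abs]
    calc |X T| ^ 2 ≤ (130 * ε) ^ 2 := by have := hsmall T hT; gcongr
      _ = 16900 * ε ^ 2 := by ring
  have hherr : ∀ T ∈ Icc (0 : ℝ) 4, |h T - (2 * T - α)| ≤ 136 * (16900 * ε ^ 2) := by
    intro T hT
    have e1 : h T - (2 * T - α) =
        2 * T * (Real.cos (5 * X T) - 1) - α * (Real.cos (3 * X T) - 1) := by
      simp only [hh]; ring
    have e2 : |2 * T * (Real.cos (5 * X T) - 1) - α * (Real.cos (3 * X T) - 1)| ≤
        8 * ((5 * X T) ^ 2 / 2) + 8 * ((3 * X T) ^ 2 / 2) := by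
      refine (abs_sub _ _).trans (add_le_add ?_ ?_)
      · rw [abs_mul, abs_of_nonneg (by linarith [hT.1] : 0 ≤ 2 * T)]
        have : 2 * T ≤ 8 := by linarith [hT.2]
        exact mul_le_mul this cos_sub (abs_nonneg _) (by norm_num)
      · rw [abs_mul, abs_of_pos hα0]
        exact mul_le_mul hα8 cos_sub (abs_nonneg _) (by norm_num)
    rw [e1]
    refine e2.trans ?_
    have e3 : 8 * ((5 * X T) ^ 2 / 2) + 8 * ((3 * X T) ^ 2 / 2) = 136 * (X T) ^ 2 := by ring
    rw [e3]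
    have := hX2 T hT
    linarith
  have hder : ∀ T ∈ Icc (0 : ℝ) 4, |deriv X T - ε * (2 * T - α)| ≤ 1000000 * ε ^ 2 := by
    intro T hT
    have h1 := hsmall T hT
    set X' := deriv X T with hX'
    have hDerr : |DD α ε T (X T) - 1| ≤ 10 * ε + 688 * (130 * ε) * ε := by
      have e1 : DD α ε T (X T) - 1 = (Real.cos (X T) - 1) +
          ε * (5 * T ^ 2 * Real.sin (5 * X T) - 3 * α * T * Real.sin (3 * X T)) := by
        unfold DD; ring
      have s5 : |Real.sin (5 * X T)| ≤ 5 * |X T| := by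
        have : |Real.sin (5 * X T)| ≤ |5 * X T| := Real.abs_sin_le_abs
        rwa [abs_mul, abs_of_pos (by norm_num : (0 : ℝ) < 5)] at this
      have s3 : |Real.sin (3 * X T)| ≤ 3 * |X T| := by
        have : |Real.sin (3 * X T)| ≤ |3 * X T| := Real.abs_sin_le_abs
        rwa [abs_mul, abs_of_pos (by norm_num : (0 : ℝ) < 3)] at this
      have hT2 : T ^ 2 ≤ 16 := by nlinarith [hT.1, hT.2]
      have e2 : |5 * T ^ 2 * Real.sin (5 * X T) - 3 * α * T * Real.sin (3 * X T)| ≤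
          5 * 16 * (5 * |X T|) + 3 * 8 * 4 * (3 * |X T|) := by
        refine (abs_sub _ _).trans (add_le_add ?_ ?_)
        · rw [abs_mul, abs_of_nonneg (by positivity : 0 ≤ 5 * T ^ 2)]
          gcongr
        · rw [abs_mul, abs_of_nonneg (mul_nonneg (by positivity) hT.1 : 0 ≤ 3 * α * T)]
          have := hT.2
          have := hT.1
          gcongr
      have h6 := cos_sub (x := X T)
      rw [e1]
      refine (abs_add_le _ _).trans ?_
      rw [abs_mul, abs_of_pos hε0]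
      have e3 : ε * |5 * T ^ 2 * Real.sin (5 * X T) - 3 * α * T * Real.sin (3 * X T)| ≤
          ε * (688 * (130 * ε)) := by
        apply mul_le_mul_of_nonneg_left _ hε0.le
        linarith
      have e4 : X T ^ 2 / 2 ≤ 10 * ε := by
        have := hX2 T hT
        nlinarith
      linarith
    have hR : |ε * h T - ε * (2 * T - α)| ≤ 2400 * ε ^ 2 := by
      have e0 : ε * h T - ε * (2 * T - α) = ε * (h T - (2 * T - α)) := by ring
      rw [e0, abs_mul, abs_of_pos hε0]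
      calc ε * |h T - (2 * T - α)| ≤ 1 / 1000 * (136 * (16900 * ε ^ 2)) := by
            have := hherr T hT
            gcongr
        _ ≤ 2400 * ε ^ 2 := by nlinarith [sq_nonneg ε]
    have hfin : (X' - ε * (2 * T - α)) * DD α ε T (X T) =
        (ε * h T - ε * (2 * T - α)) - ε * (2 * T - α) * (DD α ε T (X T) - 1) := by
      linear_combination hrel T hT
    have hc : |ε * (2 * T - α)| ≤ 8 * ε := by
      rw [abs_mul, abs_of_pos hε0]
      have : |2 * T - α| ≤ 8 := by rw [abs_le]; constructor <;> linarith [hT.1, hT.2]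
      nlinarith
    have hbd : |(X' - ε * (2 * T - α)) * DD α ε T (X T)| ≤
        2400 * ε ^ 2 + 8 * ε * (10 * ε + 688 * (130 * ε) * ε) := by
      rw [hfin]
      refine (abs_sub _ _).trans (add_le_add hR ?_)
      rw [abs_mul]
      gcongr
    have hDl := hDlow T hT
    rw [abs_mul, abs_of_pos (by linarith : 0 < DD α ε T (X T))] at hbd
    have h10 : |X' - ε * (2 * T - α)| * (1 / 2) ≤ |X' - ε * (2 * T - α)| * DD α ε T (X T) := by
      gcongr
    have h11 : ε ^ 3 ≤ 1 / 1000 * ε ^ 2 := by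
      have : ε ^ 3 = ε * ε ^ 2 := by ring
      rw [this]; gcongr
    nlinarith [sq_nonneg ε]
  -- h is strictly increasing
  have hX'b : ∀ T ∈ Icc (0 : ℝ) 4, |deriv X T| ≤ 108 * ε := by
    intro T hT
    have h1 := hder T hT
    have h2 : |ε * (2 * T - α)| ≤ 8 * ε := by
      rw [abs_mul, abs_of_pos hε0]
      have : |2 * T - α| ≤ 8 := by rw [abs_le]; constructor <;> linarith [hT.1, hT.2]
      nlinarith
    have h3 : |deriv X T| ≤ |deriv X T - ε * (2 * T - α)| + |ε * (2 * T - α)| := by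
      have := abs_add_le (deriv X T - ε * (2 * T - α)) (ε * (2 * T - α))
      simpa using this
    nlinarith
  have hhder : ∀ T ∈ Icc (0 : ℝ) 4, HasDerivAt h (2 * Real.cos (5 * X T)
      - (10 * T * Real.sin (5 * X T) - 3 * α * Real.sin (3 * X T)) * deriv X T) T := by
    intro T hT
    have hd := (han T hT).differentiableAt.hasDerivAt
    have hc5 : HasDerivAt (fun t => Real.cos (5 * X t)) (-Real.sin (5 * X T) * (5 * deriv X T)) T :=
      (hd.const_mul 5).cos
    have hc3 : HasDerivAt (fun t => Real.cos (3 * X t)) (-Real.sin (3 * X T) * (3 * deriv X T)) T :=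
      (hd.const_mul 3).cos
    have h4t : HasDerivAt (fun t : ℝ => 2 * t) 2 T := by simpa using (hasDerivAt_id T).const_mul (2 : ℝ)
    have := (h4t.mul hc5).sub (hc3.const_mul α)
    refine this.congr_deriv ?_
    ring
  have hhmono : StrictMonoOn h (Icc 0 4) := by
    apply strictMonoOn_of_deriv_pos (convex_Icc _ _)
      (fun T hT => (hhder T hT).continuousAt.continuousWithinAt)
    intro T hT
    rw [interior_Icc] at hT
    have hT' : T ∈ Icc (0 : ℝ) 4 := ⟨hT.1.le, hT.2.le⟩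
    rw [(hhder T hT').deriv]
    have hc : 1 / 2 ≤ Real.cos (5 * X T) := by
      have := cos_sub (x := 5 * X T)
      have h2 := (abs_le.1 this).1
      have h3 := hX2 T hT'
      nlinarith
    have hb : |(10 * T * Real.sin (5 * X T) - 3 * α * Real.sin (3 * X T)) * deriv X T| ≤
        64 * (108 * ε) := by
      rw [abs_mul]
      refine mul_le_mul ?_ (hX'b T hT') (abs_nonneg _) (by norm_num)
      refine (abs_sub _ _).trans ?_
      have f1 : |10 * T * Real.sin (5 * X T)| = 10 * T * |Real.sin (5 * X T)| := by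
        rw [abs_mul, abs_of_nonneg (by linarith [hT.1] : 0 ≤ 10 * T)]
      have f2 : |3 * α * Real.sin (3 * X T)| = 3 * α * |Real.sin (3 * X T)| := by
        rw [abs_mul, abs_of_nonneg (by positivity : 0 ≤ 3 * α)]
      rw [f1, f2]
      have := Real.abs_sin_le_one (5 * X T)
      have := Real.abs_sin_le_one (3 * X T)
      have h4 := hT.2
      have h5 := hT.1
      have e1 : 10 * T * |Real.sin (5 * X T)| ≤ 10 * 4 * 1 := by gcongr
      have e2 : 3 * α * |Real.sin (3 * X T)| ≤ 3 * 8 * 1 := by gcongr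
      linarith
    have := (abs_le.1 hb).2
    nlinarith
  have hh0 : h 0 < 0 := by
    simp only [hh, hX0]
    simp
    exact hα0
  have h44 : (4 : ℝ) ∈ Icc (0 : ℝ) 4 := by constructor <;> norm_num
  have hh4 : 0 < h 4 := by
    have := (abs_le.1 (hherr 4 h44)).1
    nlinarith
  obtain ⟨T₁, hT₁, hT₁0⟩ := intermediate_value_Ioo (by norm_num : (0 : ℝ) ≤ 4)
    (fun T hT => (hhder T hT).continuousAt.continuousWithinAt : ContinuousOn h (Icc 0 4)) ⟨hh0, hh4⟩
  have hT₁' : T₁ ∈ Icc (0 : ℝ) 4 := ⟨hT₁.1.le, hT₁.2.le⟩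
  refine ⟨X, hcont, hX0, fun T hT => hXabs T (hT5 T hT), fun T hT => heq T (hT5 T hT), han, hder,
    T₁, hT₁.1, hT₁.2, ?_, ?_, ?_⟩
  · have h1 := hherr T₁ hT₁'
    rw [hT₁0] at h1
    have h2 : |T₁ - α / 2| = |0 - (2 * T₁ - α)| / 2 := by
      rw [zero_sub, abs_neg, show 2 * T₁ - α = 2 * (T₁ - α / 2) by ring, abs_mul,
        abs_of_pos (by norm_num : (0 : ℝ) < 2)]
      ring
    rw [h2]
    nlinarith
  · apply strictAntiOn_of_deriv_neg (convex_Icc _ _) (hcont.mono (Icc_subset_Icc le_rfl hT₁.2.le))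
    intro T hT
    rw [interior_Icc] at hT
    have hT' : T ∈ Icc (0 : ℝ) 4 := ⟨hT.1.le, by linarith [hT.2, hT₁.2]⟩
    have h1 : h T < 0 := by
      have := hhmono hT' hT₁' hT.2
      rwa [hT₁0] at this
    have h2 := hrel T hT'
    have h3 := hDlow T hT'
    by_contra hcon
    have h4 : 0 ≤ deriv X T := not_lt.1 hcon
    nlinarith [mul_nonneg h4 (by linarith : 0 ≤ DD α ε T (X T))]
  · apply strictMonoOn_of_deriv_pos (convex_Icc _ _) (hcont.mono (Icc_subset_Icc hT₁.1.le le_rfl))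
    intro T hT
    rw [interior_Icc] at hT
    have hT' : T ∈ Icc (0 : ℝ) 4 := ⟨by linarith [hT.1, hT₁.1], hT.2.le⟩
    have h1 : 0 < h T := by
      have := hhmono hT₁' hT' hT.1
      rwa [hT₁0] at this
    have h2 := hrel T hT'
    have h3 := hDlow T hT'
    by_contra hcon
    have h4 : deriv X T ≤ 0 := not_lt.1 hcon
    nlinarith [mul_nonneg (by linarith : 0 ≤ -deriv X T) (by linarith : 0 ≤ DD α ε T (X T))]

end Pool.Agent.Y242.Arc
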