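import Pool.Agent.Helper506.ArcSupport

set_option autoImplicit false
open Complex Set Filter Metric Topology

namespace Pool.Agent.Y242.Arc

open Pool.Agent.Helper506.ArcJ Pool.Agent.Helper506.Arc

/-- `f` maximises over `S` the real part of a functional which only depends on the Taylor
coefficients number 2, .., 6. -/
def IsSupp6 (f : ℂ → ℂ) : Prop :=
  ∃ L : (ℂ → ℂ) →ₗ[ℂ] ℂ, ∃ r : ℝ, ∃ C : ℝ, 0 ≤ r ∧ r < 1 ∧
      (∀ g : ℂ → ℂ, DifferentiableOn ℂ g (Metric.ball (0 : ℂ) 1) →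
        ∀ M : ℝ, (∀ z : ℂ, ‖z‖ ≤ r → ‖g z‖ ≤ M) → ‖L g‖ ≤ C * M) ∧
      (∀ g h : ℂ → ℂ, DifferentiableOn ℂ g (Metric.ball (0 : ℂ) 1) →
        DifferentiableOn ℂ h (Metric.ball (0 : ℂ) 1) →
        (∀ n : ℕ, 2 ≤ n → n ≤ 6 → iteratedDeriv n g 0 = iteratedDeriv n h 0) → L g = L h) ∧
      (∃ g h : ℂ → ℂ, InS g ∧ InS h ∧ L g ≠ L h) ∧
      (∀ g : ℂ → ℂ, InS g → (L g).re ≤ (L f).re)

theorem PS.taylor {a : ℕ → ℂ} {f : ℂ → ℂ} (ha : PS a f) :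
    a = fun n => (n.factorial : ℂ)⁻¹ * iteratedDeriv n f 0 := by
  have hd := ha.differentiableOn
  apply ha.unique
  intro z hz
  have h := Complex.hasSum_taylorSeries_on_ball (r := (1 : NNReal)) (c := (0 : ℂ)) (z := z)
    (f := f) (by simpa using hd) (by simpa using hz)
  simp only [sub_zero, smul_eq_mul] at h
  have h2 : (fun n : ℕ => (n.factorial : ℂ)⁻¹ * iteratedDeriv n f 0 * z ^ n)
      = fun n : ℕ => (n.factorial : ℂ)⁻¹ * (z ^ n * iteratedDeriv n f 0) := by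
    funext n; ring
  simpa only [h2] using h

theorem exists_functional6 (l : E5 →ₗ[ℝ] ℝ) :
    ∃ L : (ℂ → ℂ) →ₗ[ℂ] ℂ, ∃ C : ℝ,
      (∀ g : ℂ → ℂ, DifferentiableOn ℂ g (ball (0 : ℂ) 1) →
        ∀ M : ℝ, (∀ z : ℂ, ‖z‖ ≤ 1 / 2 → ‖g z‖ ≤ M) → ‖L g‖ ≤ C * M) ∧
      (∀ g h : ℂ → ℂ, DifferentiableOn ℂ g (Metric.ball (0 : ℂ) 1) →
        DifferentiableOn ℂ h (Metric.ball (0 : ℂ) 1) →
        (∀ n : ℕ, 2 ≤ n → n ≤ 6 → iteratedDeriv n g 0 = iteratedDeriv n h 0) → L g = L h) ∧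
      ∀ (g : ℂ → ℂ) (a : ℕ → ℂ), PS a g → (L g).re = l (fun i => a (i + 2)) := by
  set lc : E5 →ₗ[ℂ] ℂ := Module.Dual.extendRCLike (𝕜 := ℂ) l with hlc
  have hre : ∀ x : E5, (lc x).re = l x := fun x => Module.Dual.re_extendRCLike_apply (𝕜 := ℂ) l x
  obtain ⟨L, hL⟩ := LinearMap.exists_extend (lc.comp coe5)
  have hLg : ∀ (g : ℂ → ℂ) (a : ℕ → ℂ), PS a g → L g = lc (fun i => a (i + 2)) := by
    intro g a ha
    have hg : g ∈ WW := ha.differentiableOn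
    have h1 := LinearMap.congr_fun hL (⟨g, hg⟩ : WW)
    have h2 : L g = lc (coe5 ⟨g, hg⟩) := h1
    have h3 : coe (⟨g, hg⟩ : WW) = a := (coe_PS (⟨g, hg⟩ : WW)).unique ha
    rw [h2]
    congr 1
    funext i
    change coe (⟨g, hg⟩ : WW) (i + 2) = _
    rw [h3]
  set lC : E5 →L[ℂ] ℂ := LinearMap.toContinuousLinearMap lc with hlC
  refine ⟨L, ‖lC‖ * 2 ^ 6, fun g hg M hM => ?_, fun g h hg hh hgh => ?_, fun g a ha => ?_⟩
  · obtain ⟨a, ha⟩ := exists_PS hg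
    rw [hLg g a ha]
    have hM0 : 0 ≤ M := (norm_nonneg _).trans (hM 0 (by simp))
    have h4 : ∀ n, ‖a n‖ ≤ M / (1 / 2) ^ n := fun n =>
      ha.cauchy (by norm_num) (by norm_num) (fun z hz => hM z hz.le) n
    have h5 : ‖(fun i : Fin 5 => a (i + 2))‖ ≤ M * 2 ^ 6 := by
      rw [pi_norm_le_iff_of_nonneg (by positivity)]
      intro i
      refine (h4 _).trans ?_
      rw [one_div, inv_pow, div_inv_eq_mul]
      have h6 : (i : ℕ) + 2 ≤ 6 := by have := i.2; omega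
      have h7 : (2 : ℝ) ^ ((i : ℕ) + 2) ≤ 2 ^ 6 := pow_le_pow_right₀ (by norm_num) h6
      exact mul_le_mul_of_nonneg_left h7 hM0
    have h8 : ‖lC (fun i : Fin 5 => a (i + 2))‖ ≤ ‖lC‖ * (M * 2 ^ 6) :=
      (lC.le_opNorm _).trans (mul_le_mul_of_nonneg_left h5 (norm_nonneg _))
    calc ‖lc (fun i : Fin 5 => a (i + 2))‖ ≤ ‖lC‖ * (M * 2 ^ 6) := h8
      _ = ‖lC‖ * 2 ^ 6 * M := by ring
  · obtain ⟨a, ha⟩ := exists_PS hg
    obtain ⟨b, hb⟩ := exists_PS hh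
    rw [hLg g a ha, hLg h b hb]
    congr 1
    funext i
    have hi : (i : ℕ) + 2 ≤ 6 := by have := i.2; omega
    rw [PS.taylor ha, PS.taylor hb]
    simp only
    rw [hgh _ (by omega) hi]
  · rw [hLg g a ha, hre]

/-- Main perturbation theorem. -/
theorem support6 : ∃ δ K : ℝ, 0 < δ ∧ 0 < K ∧ ∀ c3 c5 : ℂ, ‖c3‖ ≤ δ → ‖c5‖ ≤ δ →
    ∀ (g t : ℂ → ℂ) (μ : ℕ → ℂ), InS g → IsRoot g t → PS μ (KK c3 c5 t) → Sym μ →
      IsSupp6 g ∧ ∀ τ : ℕ → ℂ, PS τ t → |1 + (τ 1).re| ≤ K * (‖c3‖ + ‖c5‖) := by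
  obtain ⟨δ1, C1, hδ1, hC1, H⟩ := coercive_vec
  -- bounds for the inverse coordinate change
  obtain ⟨C2, hC20, hC2⟩ := lipschitz_bound Am (Am_contDiff.of_le one_le_two) 1
  obtain ⟨M, hM⟩ := (isCompact_closedBall (0 : E5) 1).exists_bound_of_continuousOn
    Am_contDiff.continuous.continuousOn
  set M' : ℝ := max 1 M with hM'
  obtain ⟨C3, hC30, hC3⟩ := taylor_bound R1 R1_cd M'
  obtain ⟨C4, hC40, hC4⟩ := taylor_bound R2 R2_cd M'
  obtain ⟨B1, hB1⟩ := (isCompact_closedBall (0 : PP) M').exists_bound_of_continuousOn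
    R1_cd.continuous.continuousOn
  obtain ⟨B2, hB2⟩ := (isCompact_closedBall (0 : PP) M').exists_bound_of_continuousOn
    R2_cd.continuous.continuousOn
  set D : ℝ := (C3 + C4) * (C2 ^ 2 * C1) with hD
  have hD0 : 0 ≤ D := by positivity
  refine ⟨min δ1 (min 1 (1 / (2 * (D + 1)))), |B1| + |B2| + 1, by positivity, by positivity, ?_⟩
  intro c3 c5 h3 h5 g t μ hg ht hμ hsym
  have h3a : ‖c3‖ ≤ δ1 := h3.trans (min_le_left _ _)
  have h5a : ‖c5‖ ≤ δ1 := h5.trans (min_le_left _ _)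
  have h3b : ‖c3‖ ≤ 1 := h3.trans ((min_le_right _ _).trans (min_le_left _ _))
  have h5b : ‖c5‖ ≤ 1 := h5.trans ((min_le_right _ _).trans (min_le_left _ _))
  have h3c : ‖c3‖ ≤ 1 / (2 * (D + 1)) := h3.trans ((min_le_right _ _).trans (min_le_right _ _))
  have h5c : ‖c5‖ ≤ 1 / (2 * (D + 1)) := h5.trans ((min_le_right _ _).trans (min_le_right _ _))
  obtain ⟨τ, hτ⟩ := exists_PS ht.1
  obtain ⟨b, hb⟩ := exists_PS hg.1
  obtain ⟨hb0, hb1⟩ := hg.coeffs hb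
  obtain ⟨hbS, hbA⟩ := coeffs_rel hb hτ ht.2.2.2 ht.2.1 hb0 hb1
  set b5 : E5 := fun i : Fin 5 => b (i + 2) with hb5
  have hpsi0 : Psi c3 c5 (vec τ) = 0 := Psi_sym hτ ht.2.1 hμ hsym
  set D1 : E5 →ₗ[ℝ] ℂ := (fderiv ℝ R1 ((c3, c5), b5)).toLinearMap.comp
    (LinearMap.inr ℝ (ℂ × ℂ) E5) with hD1
  set D2 : E5 →ₗ[ℝ] ℂ := (fderiv ℝ R2 ((c3, c5), b5)).toLinearMap.comp
    (LinearMap.inr ℝ (ℂ × ℂ) E5) with hD2
  -- the real functional
  set l : E5 →ₗ[ℝ] ℝ :=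
    (1 / 2 : ℝ) • (Complex.reLm.comp (LinearMap.proj (0 : Fin 5) : E5 →ₗ[ℝ] ℂ))
      - Complex.reLm.comp ((LinearMap.mulLeft ℝ c3).comp D1)
      - Complex.reLm.comp ((LinearMap.mulLeft ℝ c5).comp D2) with hl
  have hlx : ∀ x : E5, l x = (x 0).re / 2 - (c3 * fderiv ℝ R1 ((c3, c5), b5) (0, x)).re
      - (c5 * fderiv ℝ R2 ((c3, c5), b5) (0, x)).re := by
    intro x
    simp [hl, hD1, hD2]
    ring
  obtain ⟨L, C, hLC, hL6, hLre⟩ := exists_functional6 l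
  have hnb : ‖b5‖ ≤ M := by rw [hbA]; exact hM _ (by simpa using vec_norm_le hg ht hτ)
  have hpb : ‖(((c3, c5), b5) : PP)‖ ≤ M' := by
    simp only [Prod.norm_def]
    refine max_le (max_le ?_ ?_) ?_
    · exact h3b.trans (le_max_left _ _)
    · exact h5b.trans (le_max_left _ _)
    · exact hnb.trans (le_max_right _ _)
  have e3 : (0 : ℝ) = 1 - (b5 0).re / 2 + (c3 * R1 ((c3, c5), b5)).re
      + (c5 * R2 ((c3, c5), b5)).re := by rw [← hpsi0, hbS, Psi_Sm]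
  -- the main inequality
  have main : ∀ f s : ℂ → ℂ, ∀ σ : ℕ → ℂ, InS f → IsRoot f s → PS σ s →
      (L f).re - (L g).re ≤ -(Psi c3 c5 (vec σ)) / 2 ∧ 0 ≤ Psi c3 c5 (vec σ) := by
    intro f s σ hf hs hσ
    obtain ⟨a, ha⟩ := exists_PS hf.1
    obtain ⟨ha0, ha1⟩ := hf.coeffs ha
    obtain ⟨haS, haA⟩ := coeffs_rel ha hσ hs.2.2.2 hs.2.1 ha0 ha1
    set a5 : E5 := fun i : Fin 5 => a (i + 2) with ha5
    obtain ⟨hP, hdist⟩ := H c3 c5 h3a h5a f s g t σ τ μ hf hs hg ht hσ hτ hμ hsym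
    refine ⟨?_, hP⟩
    have hv1 := vec_norm_le hf hs hσ
    have hv2 := vec_norm_le hg ht hτ
    have hdist2 : ‖a5 - b5‖ ^ 2 ≤ C2 ^ 2 * C1 * Psi c3 c5 (vec σ) := by
      have h1 : ‖a5 - b5‖ ≤ C2 * ‖vec σ - vec τ‖ := by
        rw [haA, hbA]; exact hC2 _ _ hv1 hv2
      calc ‖a5 - b5‖ ^ 2 ≤ (C2 * ‖vec σ - vec τ‖) ^ 2 := by gcongr
        _ = C2 ^ 2 * ‖vec σ - vec τ‖ ^ 2 := by ring
        _ ≤ C2 ^ 2 * (C1 * Psi c3 c5 (vec σ)) := by gcongr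
        _ = _ := by ring
    have hna : ‖a5‖ ≤ M := by rw [haA]; exact hM _ (by simpa using hv1)
    have hpa : ‖(((c3, c5), a5) : PP)‖ ≤ M' := by
      simp only [Prod.norm_def]
      refine max_le (max_le ?_ ?_) ?_
      · exact h3b.trans (le_max_left _ _)
      · exact h5b.trans (le_max_left _ _)
      · exact hna.trans (le_max_right _ _)
    have hsub : (((c3, c5), a5) : PP) - ((c3, c5), b5) = ((0, 0), a5 - b5) := by
      ext <;> simp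
    have hnsub : ‖(((c3, c5), a5) : PP) - ((c3, c5), b5)‖ = ‖a5 - b5‖ := by
      rw [hsub]
      simp [Prod.norm_def]
    have t1 := hC3 _ _ hpa hpb
    have t2 := hC4 _ _ hpa hpb
    rw [hnsub, hsub] at t1 t2
    have z0 : ((0 : ℂ), (0 : ℂ)) = (0 : ℂ × ℂ) := rfl
    rw [z0] at t1 t2
    set r1 : ℂ := R1 ((c3, c5), a5) - R1 ((c3, c5), b5)
      - fderiv ℝ R1 ((c3, c5), b5) (0, a5 - b5) with hr1
    set r2 : ℂ := R2 ((c3, c5), a5) - R2 ((c3, c5), b5)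
      - fderiv ℝ R2 ((c3, c5), b5) (0, a5 - b5) with hr2
    have e1 : (L f).re - (L g).re = l (a5 - b5) := by
      rw [hLre f a ha, hLre g b hb, map_sub]
    have e2 : Psi c3 c5 (vec σ) = 1 - (a5 0).re / 2 + (c3 * R1 ((c3, c5), a5)).re
        + (c5 * R2 ((c3, c5), a5)).re := by rw [haS, Psi_Sm]
    have e4 : l (a5 - b5) = -(Psi c3 c5 (vec σ)) + (c3 * r1).re + (c5 * r2).re := by
      rw [hlx, e2, hr1, hr2]
      simp only [Pi.sub_apply, Complex.sub_re, mul_sub]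
      linarith
    have b1 : (c3 * r1).re ≤ ‖c3‖ * (C3 * ‖a5 - b5‖ ^ 2) := by
      refine (Complex.re_le_norm _).trans ?_
      rw [norm_mul]
      gcongr
    have b2 : (c5 * r2).re ≤ ‖c5‖ * (C4 * ‖a5 - b5‖ ^ 2) := by
      refine (Complex.re_le_norm _).trans ?_
      rw [norm_mul]
      gcongr
    set P := Psi c3 c5 (vec σ) with hPdef
    have b3 : ‖c3‖ * (C3 * ‖a5 - b5‖ ^ 2) + ‖c5‖ * (C4 * ‖a5 - b5‖ ^ 2)
        ≤ 1 / (2 * (D + 1)) * (D * P) := by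
      calc ‖c3‖ * (C3 * ‖a5 - b5‖ ^ 2) + ‖c5‖ * (C4 * ‖a5 - b5‖ ^ 2)
          ≤ 1 / (2 * (D + 1)) * (C3 * (C2 ^ 2 * C1 * P))
            + 1 / (2 * (D + 1)) * (C4 * (C2 ^ 2 * C1 * P)) := by gcongr
        _ = 1 / (2 * (D + 1)) * (D * P) := by rw [hD]; ring
    have b4 : 1 / (2 * (D + 1)) * (D * P) ≤ P / 2 := by
      rw [div_mul_eq_mul_div, one_mul, div_le_iff₀ (by positivity)]
      nlinarith
    rw [e1, e4]
    linarith
  -- conclude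
  refine ⟨⟨L, 1 / 2, C, by norm_num, by norm_num, hLC, hL6, ⟨fun z => z, g, id_InS, hg, ?_⟩, ?_⟩, ?_⟩
  · intro heq
    have hid : IsRoot (fun z => z) (fun _ => 1) :=
      ⟨differentiableOn_const 1, rfl, fun _ _ => one_ne_zero, fun z _ => by simp⟩
    have hone : PS (fun n => if n = 0 then 1 else 0) (fun _ => 1) := by
      simpa using PS_pow 0
    obtain ⟨h1, h2⟩ := main _ _ _ id_InS hid hone
    rw [heq, sub_self] at h1
    have hv : vec (fun n => if n = 0 then (1 : ℂ) else 0) = 0 := by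
      funext i; simp [vec]
    rw [hv] at h1 h2
    have : 1 ≤ Psi c3 c5 0 := by
      have : Psi c3 c5 0 = 5 * ‖c5‖ ^ 2 + 3 * ‖c3‖ ^ 2 + 1 := by
        simp [Psi, k0, k1, k2, k3, k4, k5]
      rw [this]
      have := sq_nonneg ‖c5‖
      have := sq_nonneg ‖c3‖
      linarith
    linarith
  · intro f hf
    obtain ⟨s, hs⟩ := exists_root hf
    obtain ⟨σ, hσ⟩ := exists_PS hs.1
    obtain ⟨h1, h2⟩ := main f s σ hf hs hσ
    linarith
  · intro τ' hτ'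
    have : τ' = τ := hτ'.unique hτ
    rw [this]
    have hb2 : b5 0 = -(2 * τ 1) := by
      have := congrFun hbA 0
      rw [this]
      rfl
    have hre2 : (b5 0).re / 2 = -(τ 1).re := by
      rw [hb2, Complex.neg_re, show (2 : ℂ) * τ 1 = ((2 : ℝ) : ℂ) * τ 1 by norm_num,
        Complex.re_ofReal_mul]
      ring
    have e5 : 1 + (τ 1).re = -((c3 * R1 ((c3, c5), b5)).re + (c5 * R2 ((c3, c5), b5)).re) := by
      linarith
    rw [e5, abs_neg]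
    have m1 : ‖R1 ((c3, c5), b5)‖ ≤ |B1| := (hB1 _ (by simpa using hpb)).trans (le_abs_self _)
    have m2 : ‖R2 ((c3, c5), b5)‖ ≤ |B2| := (hB2 _ (by simpa using hpb)).trans (le_abs_self _)
    have f1 : |(c3 * R1 ((c3, c5), b5)).re| ≤ ‖c3‖ * |B1| := by
      refine (Complex.abs_re_le_norm _).trans ?_
      rw [norm_mul]
      gcongr
    have f2 : |(c5 * R2 ((c3, c5), b5)).re| ≤ ‖c5‖ * |B2| := by
      refine (Complex.abs_re_le_norm _).trans ?_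
      rw [norm_mul]
      gcongr
    refine (abs_add_le _ _).trans ((add_le_add f1 f2).trans ?_)
    nlinarith [norm_nonneg c3, norm_nonneg c5, abs_nonneg B1, abs_nonneg B2]

end Pool.Agent.Y242.Arc
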