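import Pool.Agent.Y242.Arc.Family

set_option autoImplicit false
open Complex Set Filter Metric Topology

namespace Pool.Agent.Y242.Arc

open Pool.Agent.Helper506.Arc Pool.Agent.Helper506
open Pool.Agent.Helper506.ArcPair (ClassS ParamOmittedArc)

/-- `f` belongs to `S` and maximises `Re L` over `S` for some linear functional `L` that is
continuous for locally uniform convergence on the disc, only depends on the Taylor coefficients
`a₂, …, a₆`, and is not constant on `S`. -/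
def IsSupportPointSix (f : ℂ → ℂ) : Prop :=
  ClassS f ∧ ∃ L : (ℂ → ℂ) →ₗ[ℂ] ℂ,
    (∃ r C : ℝ, 0 ≤ r ∧ r < 1 ∧ ∀ g : ℂ → ℂ, DifferentiableOn ℂ g (ball (0 : ℂ) 1) →
      ∀ M : ℝ, (∀ z : ℂ, ‖z‖ ≤ r → ‖g z‖ ≤ M) → ‖L g‖ ≤ C * M) ∧
    (∀ g h : ℂ → ℂ, DifferentiableOn ℂ g (ball (0 : ℂ) 1) → DifferentiableOn ℂ h (ball (0 : ℂ) 1) →
      (∀ n : ℕ, 2 ≤ n → n ≤ 6 → iteratedDeriv n g 0 = iteratedDeriv n h 0) → L g = L h) ∧
    (∃ g h : ℂ → ℂ, ClassS g ∧ ClassS h ∧ L g ≠ L h) ∧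
    ∀ g : ℂ → ℂ, ClassS g → (L g).re ≤ (L f).re

theorem gam_param {f : ℂ → ℂ} {c : ℝ} {X : ℝ → ℝ} (hc : 0 < c)
    (himg : (f '' ball (0 : ℂ) 1)ᶜ = (arcPt X c) '' Ici (1 / 4))
    (hXan : ∀ T ∈ Icc (0 : ℝ) 4, AnalyticAt ℝ X T) : ParamOmittedArc f (gam X c) := by
  have hd : ∀ t : ℝ, 0 ≤ t → HasDerivAt (gam X c) (gam X c t * (((1 / (t + 1 / 4) : ℝ) : ℂ) *
      (1 - ((2 * (1 / (t + 1 / 4)) * deriv X (1 / (t + 1 / 4)) : ℝ) : ℂ) * I))) t :=
    fun t ht => gam_hasDerivAt ht hXan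
  have hinvan : ∀ t : ℝ, 0 ≤ t → AnalyticAt ℝ (fun t : ℝ => 1 / (t + 1 / 4)) t := by
    intro t ht
    have h0 : t + 1 / 4 ≠ 0 := by positivity
    exact analyticAt_const.div (analyticAt_id.add analyticAt_const) h0
  have hXT : ∀ t : ℝ, 0 ≤ t → AnalyticAt ℝ (fun t : ℝ => X (1 / (t + 1 / 4))) t := by
    intro t ht
    exact AnalyticAt.fun_comp (hXan _ (inv_mem ht)) (hinvan t ht)
  refine ⟨?_, ?_, ?_, ?_⟩
  · intro t ht
    constructor
    · have h1 : AnalyticAt ℝ (fun t : ℝ => (((-((t + 1 / 4) / c)) : ℝ) : ℂ)) t := by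
        have : AnalyticAt ℝ (fun t : ℝ => -((t + 1 / 4) / c)) t :=
          ((analyticAt_id.add analyticAt_const).div analyticAt_const hc.ne').neg
        exact (Complex.ofRealCLM.analyticAt _).comp this
      have h2 : AnalyticAt ℝ (fun t : ℝ =>
          Complex.exp (((2 * X (1 / (t + 1 / 4)) : ℝ) : ℂ) * I)) t := by
        have h3 : AnalyticAt ℝ (fun t : ℝ => 2 * X (1 / (t + 1 / 4))) t :=
          analyticAt_const.mul (hXT t ht)
        have h4 : AnalyticAt ℝ (fun t : ℝ => (((2 * X (1 / (t + 1 / 4)) : ℝ) : ℂ)) * I) t :=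
          ((Complex.ofRealCLM.analyticAt _).comp h3).mul analyticAt_const
        have h5 : AnalyticAt ℝ Complex.exp ((((2 * X (1 / (t + 1 / 4)) : ℝ) : ℂ)) * I) :=
          analyticAt_cexp.restrictScalars
        exact AnalyticAt.fun_comp h5 h4
      exact h1.mul h2
    · rw [(hd t ht).deriv]
      refine mul_ne_zero (gam_ne hc ht) (mul_ne_zero ?_ ?_)
      · have : (1 / (t + 1 / 4) : ℝ) ≠ 0 := by positivity
        exact_mod_cast this
      · intro h0
        have := congrArg Complex.re h0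
        simp at this
  · intro x hx y hy hxy
    have h1 : ‖gam X c x‖ = ‖gam X c y‖ := by rw [hxy]
    rw [gam_norm hc hx, gam_norm hc hy] at h1
    have h2 : x + 1 / 4 = y + 1 / 4 := by
      field_simp at h1
      linarith
    linarith
  · rw [himg]
    ext v
    constructor
    · rintro ⟨t, ht, rfl⟩
      have ht0 : (0 : ℝ) ≤ t := ht
      exact ⟨t + 1 / 4, by simpa using ht0, rfl⟩
    · rintro ⟨r, hr, rfl⟩
      have hr0 : (1 / 4 : ℝ) ≤ r := hr
      refine ⟨r - 1 / 4, by simpa using hr0, ?_⟩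
      simp only [gam]
      congr 1
      ring
  · have : Filter.Tendsto (fun t : ℝ => (t + 1 / 4) / c) Filter.atTop Filter.atTop :=
      (Filter.tendsto_id.atTop_add tendsto_const_nhds).atTop_div_const hc
    refine this.congr' ?_
    filter_upwards [Filter.eventually_ge_atTop (0 : ℝ)] with t ht
    exact (gam_norm hc ht).symm

theorem main (lam δ : ℝ) (hlam : 1 < lam) (hδ : 0 < δ) :
    ∃ f : ℂ → ℂ, IsSupportPointSix f ∧
      (∀ z : ℂ, ‖z‖ ≤ 1 - δ → ‖f z - z / (1 - z) ^ 2‖ ≤ δ) ∧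
      ∃ w : ℝ → ℂ, ParamOmittedArc f w ∧ StrictMonoOn (fun t => ‖w t‖) (Ici 0) ∧
        (∃ A : ℝ → ℝ, ContinuousOn A (Ici 0) ∧
          (∀ t : ℝ, 0 ≤ t → w t = ‖w t‖ * Complex.exp (A t * I)) ∧
          ∃ t₁ : ℝ, 0 < t₁ ∧ |‖w t₁‖ / ‖w 0‖ - lam| ≤ δ ∧
            StrictAntiOn A (Icc 0 t₁) ∧ StrictMonoOn A (Ici t₁)) ∧
        ∃ B : ℝ → ℝ, ContinuousOn B (Ici 0) ∧
          (∀ t : ℝ, 0 ≤ t → deriv w t / w t = ‖deriv w t / w t‖ * Complex.exp (B t * I)) ∧
          ¬ MonotoneOn B {t | 0 ≤ t ∧ |‖w t‖ / ‖w 0‖ - 2 * lam| ≤ δ} ∧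
          ¬ AntitoneOn B {t | 0 ≤ t ∧ |‖w t‖ / ‖w 0‖ - 2 * lam| ≤ δ} := by
  have hlam0 : 0 < lam := by linarith
  have hα0 : 0 < 8 / lam := by positivity
  have hα8 : 8 / lam < 8 := by
    rw [div_lt_iff₀ hlam0]; linarith
  obtain ⟨e0, C, he0, hC, H⟩ := exists_family hα0 hα8 (by linarith : 1 - δ < 1) hδ
  set κ : ℝ := min (1 / lam) (δ / (2 * lam ^ 2)) with hκ
  have hκ0 : 0 < κ := by positivity
  set ε : ℝ := min e0 (min (2 / lam / C) (min (2 * δ / (lam ^ 2 * C)) (κ ^ 2 / (8 * C)))) with hε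
  have hε0 : 0 < ε := by positivity
  have hεe : ε ≤ e0 := min_le_left _ _
  have hε1 : C * ε ≤ 2 / lam := by
    have : ε ≤ 2 / lam / C := (min_le_right _ _).trans (min_le_left _ _)
    rw [le_div_iff₀ hC] at this
    linarith
  have hε2 : C * ε * lam ^ 2 / 2 ≤ δ := by
    have : ε ≤ 2 * δ / (lam ^ 2 * C) :=
      ((min_le_right _ _).trans (min_le_right _ _)).trans (min_le_left _ _)
    rw [le_div_iff₀ (by positivity)] at this
    linarith
  have hε3 : 8 * (C * ε) ≤ κ ^ 2 := by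
    have : ε ≤ κ ^ 2 / (8 * C) :=
      ((min_le_right _ _).trans (min_le_right _ _)).trans (min_le_right _ _)
    rw [le_div_iff₀ (by positivity)] at this
    linarith
  obtain ⟨f, c, T₁, X, hc, hfS, hsupp, hclose, himg, hXc, hXan, hXder, hT₁0, hT₁4, hT₁, hanti,
    hmono⟩ := H ε hε0 hεe
  obtain ⟨L, r, C', hr0, hr1, hcont, h6, hne, hmax⟩ := hsupp
  have hinvan : ∀ t : ℝ, 0 ≤ t → ContinuousAt (fun t : ℝ => 1 / (t + 1 / 4)) t := by
    intro t ht
    have h0 : t + 1 / 4 ≠ 0 := by positivity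
    exact continuousAt_const.div (continuousAt_id.add continuousAt_const) h0
  have hXT : ∀ t : ℝ, 0 ≤ t → ContinuousAt (fun t : ℝ => X (1 / (t + 1 / 4))) t := by
    intro t ht
    exact ContinuousAt.comp (f := fun t : ℝ => 1 / (t + 1 / 4)) (g := X)
      (hXan _ (inv_mem ht)).continuousAt (hinvan t ht)
  have hX'T : ∀ t : ℝ, 0 ≤ t → ContinuousAt (fun t : ℝ => deriv X (1 / (t + 1 / 4))) t := by
    intro t ht
    exact ContinuousAt.comp (f := fun t : ℝ => 1 / (t + 1 / 4)) (g := deriv X)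
      (hXan _ (inv_mem ht)).deriv.continuousAt (hinvan t ht)
  have hquot : ∀ t : ℝ, 0 ≤ t → ‖gam X c t‖ / ‖gam X c 0‖ = 4 * (t + 1 / 4) := by
    intro t ht
    rw [gam_norm hc ht, gam_norm hc le_rfl]
    field_simp
    ring
  have hinv : ∀ T : ℝ, 0 < T → T ≤ 4 → 0 ≤ 1 / T - 1 / 4 ∧ 1 / (1 / T - 1 / 4 + 1 / 4) = T := by
    intro T h0 h4
    constructor
    · have : 1 / 4 ≤ 1 / T := one_div_le_one_div_of_le h0 h4
      linarith
    · rw [sub_add_cancel, one_div_one_div]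
  refine ⟨f, ⟨hfS, L, ⟨r, C', hr0, hr1, hcont⟩, h6, hne, hmax⟩, hclose, gam X c,
    gam_param hc himg hXan, ?_, ?_, ?_⟩
  · intro x hx y hy hxy
    simp only
    rw [gam_norm hc hx, gam_norm hc hy]
    gcongr
  · -- the argument
    refine ⟨fun t => Real.pi + 2 * X (1 / (t + 1 / 4)), ?_, ?_, 1 / T₁ - 1 / 4, ?_, ?_, ?_, ?_⟩
    · intro t ht
      exact ((hXT t ht).const_mul 2 |>.const_add Real.pi).continuousWithinAt
    · intro t ht
      have h1 := gam_norm (X := X) hc ht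
      rw [h1]
      have h2 : (((Real.pi + 2 * X (1 / (t + 1 / 4)) : ℝ)) : ℂ) * I
          = Real.pi * I + ((2 * X (1 / (t + 1 / 4)) : ℝ) : ℂ) * I := by push_cast; ring
      simp only [h2, Complex.exp_add, Complex.exp_pi_mul_I]
      simp only [gam, arcPt]
      push_cast
      ring
    · have : 1 / 4 < 1 / T₁ := one_div_lt_one_div_of_lt hT₁0 hT₁4
      linarith
    · rw [hquot _ (hinv T₁ hT₁0 hT₁4.le).1, sub_add_cancel]
      have h1 : |T₁ - 4 / lam| ≤ C * ε := by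
        have : 8 / lam / 2 = 4 / lam := by ring
        rwa [this] at hT₁
      have h2 : 2 / lam ≤ T₁ := by
        have := (abs_le.1 h1).1
        have h3 : 4 / lam = 2 / lam + 2 / lam := by ring
        linarith
      have h3 : 4 * (1 / T₁) - lam = -(lam * (T₁ - 4 / lam)) / T₁ := by
        field_simp
        ring
      rw [h3, abs_div, abs_neg, abs_mul, abs_of_pos hlam0, abs_of_pos hT₁0, div_le_iff₀ hT₁0]
      have h4 : δ * (2 / lam) ≤ δ * T₁ := by gcongr
      have h5 : C * ε * lam ≤ δ * (2 / lam) := by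
        rw [mul_div_assoc', le_div_iff₀ hlam0]
        nlinarith
      calc lam * |T₁ - 4 / lam| ≤ lam * (C * ε) := by gcongr
        _ = C * ε * lam := by ring
        _ ≤ δ * T₁ := h5.trans h4
    · intro x hx y hy hxy
      have hx0 : 0 ≤ x := hx.1
      have hy0 : 0 ≤ y := hy.1
      have h1 : 1 / (y + 1 / 4) < 1 / (x + 1 / 4) := one_div_lt_one_div_of_lt (by linarith) (by linarith)
      have h2 : ∀ t ∈ Icc 0 (1 / T₁ - 1 / 4), 1 / (t + 1 / 4) ∈ Icc T₁ 4 := by
        intro t ht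
        have ht0 : 0 ≤ t := ht.1
        have ht1 : t + 1 / 4 ≤ 1 / T₁ := by linarith [ht.2]
        refine ⟨?_, (inv_mem ht0).2⟩
        rw [le_div_iff₀ (by positivity)]
        rw [le_div_iff₀ hT₁0] at ht1
        linarith
      have := hmono (h2 y hy) (h2 x hx) h1
      simp only
      linarith
    · intro x hx y hy hxy
      have hx1 : 1 / T₁ - 1 / 4 ≤ x := hx
      have hy1 : 1 / T₁ - 1 / 4 ≤ y := hy
      have hpos : 0 < 1 / T₁ - 1 / 4 := by
        have : 1 / 4 < 1 / T₁ := one_div_lt_one_div_of_lt hT₁0 hT₁4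
        linarith
      have hx0 : 0 ≤ x := by linarith
      have h1 : 1 / (y + 1 / 4) < 1 / (x + 1 / 4) := one_div_lt_one_div_of_lt (by linarith) (by linarith)
      have h2 : ∀ t ∈ Ici (1 / T₁ - 1 / 4), 1 / (t + 1 / 4) ∈ Icc 0 T₁ := by
        intro t ht
        have ht1 : 1 / T₁ - 1 / 4 ≤ t := ht
        have ht0 : 0 ≤ t := by linarith
        have ht2 : 1 / T₁ ≤ t + 1 / 4 := by linarith
        refine ⟨(inv_mem ht0).1, ?_⟩
        rw [div_le_iff₀ (by positivity)]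
        rw [div_le_iff₀ hT₁0] at ht2
        linarith
      have := hanti (h2 y hy) (h2 x hx) h1
      simp only
      linarith
  · -- the angle
    have key : ∀ t : ℝ, 0 ≤ t → Complex.arg (deriv (gam X c) t / gam X c t)
        = Real.arctan (-(2 * (1 / (t + 1 / 4)) * deriv X (1 / (t + 1 / 4)))) :=
      fun t ht => gam_arg hc ht hXan
    -- three values of T
    have hTκ : κ ≤ 1 / lam := min_le_left _ _
    have hTκ2 : κ ≤ δ / (2 * lam ^ 2) := min_le_right _ _
    have hl1 : 1 / lam < 1 := by rw [div_lt_one hlam0]; exact hlam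
    have hT : ∀ T : ℝ, |T - 2 / lam| ≤ κ → 0 < T ∧ T ≤ 4 ∧
        1 / T - 1 / 4 ∈ {t | 0 ≤ t ∧ |‖gam X c t‖ / ‖gam X c 0‖ - 2 * lam| ≤ δ} := by
      intro T hT
      have h1 := abs_le.1 hT
      have h2 : 2 / lam = 1 / lam + 1 / lam := by ring
      have h3 : 0 < 1 / lam := by positivity
      have hTl : 1 / lam ≤ T := by linarith [h1.1]
      have hT0 : 0 < T := by linarith
      have hT4 : T ≤ 4 := by linarith [h1.2]
      refine ⟨hT0, hT4, (hinv T hT0 hT4).1, ?_⟩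
      rw [hquot _ (hinv T hT0 hT4).1, sub_add_cancel]
      have h4 : 4 * (1 / T) - 2 * lam = -(2 * lam * (T - 2 / lam)) / T := by
        field_simp
        ring
      rw [h4, abs_div, abs_neg, abs_mul, abs_of_pos (by positivity : 0 < 2 * lam), abs_of_pos hT0,
        div_le_iff₀ hT0]
      have h5 : δ * (1 / lam) ≤ δ * T := by gcongr
      have h6 : 2 * lam * κ ≤ δ * (1 / lam) := by
        rw [le_div_iff₀ (by positivity)] at hTκ2
        rw [mul_one_div, le_div_iff₀ hlam0]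
        nlinarith
      calc 2 * lam * |T - 2 / lam| ≤ 2 * lam * κ := by gcongr
        _ ≤ δ * T := h6.trans h5
    have hφ : ∀ T : ℝ, 0 < T → T ≤ 4 →
        |2 * T * deriv X T - ε * (2 * (T * (2 * T - 8 / lam)))| ≤ ε * (8 * (C * ε)) := by
      intro T h0 h4
      have h1 := hXder T ⟨h0.le, h4⟩
      have h2 : 2 * T * deriv X T - ε * (2 * (T * (2 * T - 8 / lam)))
          = 2 * T * (deriv X T - ε * (2 * T - 8 / lam)) := by ring
      rw [h2, abs_mul, abs_of_pos (by positivity : 0 < 2 * T)]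
      calc 2 * T * |deriv X T - ε * (2 * T - 8 / lam)| ≤ 2 * 4 * (C * ε ^ 2) := by gcongr
        _ = ε * (8 * (C * ε)) := by ring
    have hκκ : 0 < κ ^ 2 := by positivity
    have hmid := hT (2 / lam) (by simp [hκ0.le])
    have hlow := hT (2 / lam - κ) (by simp [abs_of_pos hκ0])
    have hup := hT (2 / lam + κ) (by simp [abs_of_pos hκ0])
    have m1 := abs_le.1 (hφ _ hmid.1 hmid.2.1)
    have m2 := abs_le.1 (hφ _ hlow.1 hlow.2.1)
    have m3 := abs_le.1 (hφ _ hup.1 hup.2.1)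
    have q1 : 2 * (2 / lam * (2 * (2 / lam) - 8 / lam)) = -16 / lam ^ 2 := by
      field_simp; ring
    have q2 : 2 * ((2 / lam - κ) * (2 * (2 / lam - κ) - 8 / lam)) = -16 / lam ^ 2 + 4 * κ ^ 2 := by
      field_simp; ring
    have q3 : 2 * ((2 / lam + κ) * (2 * (2 / lam + κ) - 8 / lam)) = -16 / lam ^ 2 + 4 * κ ^ 2 := by
      field_simp; ring
    rw [q1] at m1
    rw [q2] at m2
    rw [q3] at m3
    have hεκ : ε * (8 * (C * ε)) ≤ ε * κ ^ 2 := by gcongr
    have hεκ0 : 0 < ε * κ ^ 2 := by positivity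
    refine ⟨fun t => Real.arctan (-(2 * (1 / (t + 1 / 4)) * deriv X (1 / (t + 1 / 4)))),
      ?_, ?_, ?_, ?_⟩
    · intro t ht
      have h1 : ContinuousAt (fun t : ℝ => -(2 * (1 / (t + 1 / 4)) * deriv X (1 / (t + 1 / 4)))) t :=
        (((hinvan t ht).const_mul 2).mul (hX'T t ht)).neg
      exact (Real.continuous_arctan.continuousAt.comp h1).continuousWithinAt
    · intro t ht
      change deriv (gam X c) t / gam X c t = ‖deriv (gam X c) t / gam X c t‖ * Complex.exp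
        ((Real.arctan (-(2 * (1 / (t + 1 / 4)) * deriv X (1 / (t + 1 / 4)))) : ℝ) * I)
      rw [← key t ht]
      exact (Complex.norm_mul_exp_arg_mul_I _).symm
    · intro hm
      have hle : 1 / (2 / lam) - 1 / 4 ≤ 1 / (2 / lam - κ) - 1 / 4 := by
        have : 1 / (2 / lam) ≤ 1 / (2 / lam - κ) :=
          one_div_le_one_div_of_le hlow.1 (by linarith)
        linarith
      have h := hm hmid.2.2 hlow.2.2 hle
      simp only at h
      rw [Real.arctan_le_arctan_iff, (hinv _ hmid.1 hmid.2.1).2, (hinv _ hlow.1 hlow.2.1).2] at h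
      nlinarith [m1.1, m1.2, m2.1, m2.2]
    · intro hm
      have hle : 1 / (2 / lam + κ) - 1 / 4 ≤ 1 / (2 / lam) - 1 / 4 := by
        have : 1 / (2 / lam + κ) ≤ 1 / (2 / lam) :=
          one_div_le_one_div_of_le hmid.1 (by linarith)
        linarith
      have h := hm hup.2.2 hmid.2.2 hle
      simp only at h
      rw [Real.arctan_le_arctan_iff, (hinv _ hmid.1 hmid.2.1).2, (hinv _ hup.1 hup.2.1).2] at h
      nlinarith [m1.1, m1.2, m3.1, m3.2]

end Pool.Agent.Y242.Arc
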